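import Mathlib
import Pool.Agent.TH907.Opn.MthC
import Pool.Agent.Results.MP_f02ea4_nt.LargePrimeDivisors

set_option autoImplicit false

/-!
# Odd perfect numbers with few large prime factors

For every `m` there are constants `C` and `K` such that an odd perfect number `N` with at most `m`
prime factors larger than `y` satisfies `log N ≤ C y ^ K`.  In other words, for every `m` the
`m`-th largest prime factor of `N` is at least `c (log N) ^ δ`, where `c > 0` and `δ > 0` depend only
on `m`.

Proof.  Let `R` be the set of the prime factors larger than `y`.  For a prime factor `q ≤ y` of `N`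
with exponent `e` write `q ^ (e + 1) - 1 = B_q M_q`, where `M_q` is composed of the primes of `R`;
then `B_q` is small.  Let `n = 2 (m + 1)` and consider `4 m + 2` rapidly increasing scales `θ_t`.

(1) (`Mth.window`) For every `t` there is a prime factor `p` of `N` such that `log p` or
`(e_p + 1) log p` is in a short window after `θ_t`.  Otherwise let `A`, `T` and `U` be the sets of
the primes with `(e_p + 1) log p` small, with only `log p` small, and with `log p` large.  Then
`σ(N) / N = 2` implies that `∏_A σ(p ^ e) ∏_T p` and `2 ∏_A p ^ e ∏_T (p - 1)` are too close together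
to be different; but they are different, by the factor `max T`.

(2) At most `2 m` windows are occupied by the primes of `R` only; so there are small primes
`q_1, …, q_n` whose components `q_j ^ (e_j + 1)` are of rapidly increasing sizes.

(3) By Siegel's lemma there are small integers `k_j`, not all `0`, with `∏ M_{q_j} ^ {k_j} = 1`.  If
`i` is the last index with `k_i ≠ 0`, then
`B_i ^ {2 k_i} ∏_{j < i} M_j ^ {-2 k_j} = (B_i M_i) ^ {2 k_i}` is not `1`, but it is `1` modulo
`q_i ^ (e_i + 1)`.

(4) This contradicts a theorem on `p`-adic linear forms in logarithms (`Bak.weakBaker`): if `p ≤ S`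
is an odd prime, `α_1, …, α_n ≤ 2 ^ S` are prime to `p`, `|b_i| ≤ 2 ^ S`, and `∏ α_i ^ {b_i}` is
different from `1` but congruent to `1` modulo `p ^ M`, then `M ≤ C S ^ κ`.  It is proved here from
scratch by the method of Gelfond and Baker, with exponential polynomials over `ℤ_p`.
-/

namespace Pool.Agent.Results.MP_f02ea4_nt.ManyLargePrimes
open Finset
open Pool.Agent.W132.OPN

/-- **Main theorem.**  For every `m` there are `C > 0` and `K > 0` such that for all odd perfect
numbers `N` and all `y ≥ 1`: if `N` has at most `m` distinct prime factors larger than `y`, then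
`log N ≤ C y ^ K`. -/
theorem result (m : ℕ) : ∃ C K : ℝ, 0 < C ∧ 0 < K ∧ ∀ N : ℕ, Odd N → N.Perfect →
    ∀ y : ℝ, 1 ≤ y → (N.primeFactors.filter (fun p : ℕ => y < (p : ℝ))).card ≤ m →
    Real.log N ≤ C * y ^ K := by
  classical
  obtain ⟨C, K, hC, h⟩ := Pool.Agent.TH907.Opn.Mth.many_large m
  refine ⟨C * 2 ^ (K + 1), (K + 1 : ℕ), by positivity, by positivity, ?_⟩
  intro N hodd hperf y hy hcard
  have H := opn_of_perfect hodd hperf
  obtain ⟨Y, hY, hY2, hYiff⟩ := LargePrimeDivisors.cutoff N H y hy
  have hR : (R N Y).card ≤ m := by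
    refine le_trans (Finset.card_le_card ?_) hcard
    intro p hp
    rw [R, Finset.mem_filter] at hp
    rw [Finset.mem_filter]
    refine ⟨hp.1, ?_⟩
    have h1 := hYiff p hp.1
    by_contra hcon
    exact hp.2 (h1.1 (not_lt.1 hcon))
  have h1 := h N Y H hY hR
  have hN : (N : ℝ) ≤ (2 : ℝ) ^ (Nat.log 2 N + 1) := by
    exact_mod_cast (Nat.lt_pow_succ_log_self (by norm_num) N).le
  have hN0 : (0 : ℝ) < N := by
    have := H.ne_zero
    exact_mod_cast (by omega : 0 < N)
  have h2 : Real.log N ≤ (Nat.log 2 N + 1 : ℕ) := by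
    calc Real.log N ≤ Real.log ((2 : ℝ) ^ (Nat.log 2 N + 1)) := Real.log_le_log hN0 hN
      _ = (Nat.log 2 N + 1 : ℕ) * Real.log 2 := Real.log_pow _ _
      _ ≤ (Nat.log 2 N + 1 : ℕ) * 1 :=
          mul_le_mul_of_nonneg_left (by have := Real.log_two_lt_d9; linarith) (Nat.cast_nonneg _)
      _ = _ := mul_one _
  have h3 : ((Nat.log 2 N + 1 : ℕ) : ℝ) ≤ C * (Y : ℝ) ^ K := by exact_mod_cast h1
  have hYr : (2 : ℝ) ≤ Y := by exact_mod_cast hY
  rw [Real.rpow_natCast]
  calc Real.log N ≤ C * (Y : ℝ) ^ K := h2.trans h3
    _ ≤ C * (Y : ℝ) ^ (K + 1) :=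
        mul_le_mul_of_nonneg_left (pow_le_pow_right₀ (by linarith) (Nat.le_succ _))
          (Nat.cast_nonneg _)
    _ ≤ C * (2 * y) ^ (K + 1) :=
        mul_le_mul_of_nonneg_left (pow_le_pow_left₀ (by positivity) hY2 _) (Nat.cast_nonneg _)
    _ = _ := by rw [mul_pow]; ring

end Pool.Agent.Results.MP_f02ea4_nt.ManyLargePrimes
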