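import Mathlib
import Pool.Agent.TH907.Opn.Descent

set_option autoImplicit false

/-!
# An odd perfect number with `k` distinct prime factors is less than `2 ^ ((7 / 8) 4 ^ k)`

The descent of Heath-Brown, Cook and Nielsen works with a partition of the prime factors of `N` in
three sets `A`, `T`, `U` and with the integers `F = ∏_A σ(p ^ e) ∏_T p`,
`G = ∏_A p ^ e ∏_T (p - 1)`.  As long as `F < 2 G` some primes are moved from `U` to `T`, and as long
as `2 G < F` some primes are moved from `T` to `A`; the bound `2 ^ (2 ^ (2 |A| + |T|))` for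
`1 + min(F, 2 G)` is preserved (`descent_aux`).  We stop when either one prime is left in `U` and none
in `T`, or two primes `p, q` are left in `T` and none in `U`.  The new point is the treatment of the
second case: if `N = M p ^ a q ^ b`, then the powers of `q` in `σ(p ^ a)` and of `p` in `σ(q ^ b)`
cannot both be large, because of the congruences modulo these powers and of a parity obstruction
(`cong`), and this gives `N ^ 2 ≤ 12 ^ 3 M ^ 7 ((p - 1) (q - 1)) ^ 3` (`pair`), whereas one only gets
`N ^ 2 < (2 M (p - 1) (q - 1) + 1) ^ 8` from the descent.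
-/

namespace Pool.Agent.Results.MP_f02ea4_nt.SevenEighths

/-- **Main theorem.** An odd perfect number `N` with exactly `k` distinct prime factors satisfies
`N ^ 8 < 2 ^ (7 * 4 ^ k)`, i.e. `N < 2 ^ ((7 / 8) 4 ^ k)`. -/
theorem result (N : ℕ) (hodd : Odd N) (hperf : Nat.Perfect N) :
    N ^ 8 < 2 ^ (7 * 4 ^ N.primeFactors.card) :=
  Pool.Agent.TH907.Opn.opn_bound N hodd ((Nat.perfect_iff_sum_divisors_eq_two_mul hperf.2).1 hperf)

end Pool.Agent.Results.MP_f02ea4_nt.SevenEighths
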