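import Mathlib
import Pool.Agent.TH907.Opn.Pair

set_option autoImplicit false

/-!
# The product of two prime power components of an odd perfect number

Let `N` be an odd perfect number and let `p ^ a`, `q ^ b` be the exact powers of two different primes
dividing `N`.  Then `(p ^ a q ^ b) ^ 7 ≤ 12 ^ 3 ((p - 1) (q - 1)) ^ 3 N ^ 5`.
-/

namespace Pool.Agent.Results.MP_f02ea4_nt.TwoComponents
open Finset
open Pool.Agent.TH907.Opn (sp pair)

/-- **Main theorem.** -/
theorem result (N : ℕ) (hodd : Odd N) (hperf : Nat.Perfect N) (p q : ℕ)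
    (hp : p ∈ N.primeFactors) (hq : q ∈ N.primeFactors) (hpq : p ≠ q) :
    (p ^ N.factorization p * q ^ N.factorization q) ^ 7 ≤
      1728 * ((p - 1) * (q - 1)) ^ 3 * N ^ 5 := by
  classical
  have hsum := (Nat.perfect_iff_sum_divisors_eq_two_mul hperf.2).1 hperf
  have hN0 : N ≠ 0 := hperf.2.ne'
  have hIp : ∀ p ∈ N.primeFactors, p.Prime := fun p hp => Nat.prime_of_mem_primeFactors hp
  have h3 : ∀ p ∈ N.primeFactors, 3 ≤ p := by
    intro p hp
    have h1 := hIp p hp
    have h2 : p ≠ 2 := by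
      rintro rfl
      have := Nat.dvd_of_mem_primeFactors hp
      exact (Nat.not_even_iff_odd.2 hodd) (even_iff_two_dvd.2 this)
    have := h1.two_le
    omega
  have he1 : ∀ p ∈ N.primeFactors, 1 ≤ N.factorization p := fun p hp =>
    (hIp p hp).factorization_pos_of_dvd hN0 (Nat.dvd_of_mem_primeFactors hp)
  have h1 : ∏ p ∈ N.primeFactors, p ^ (N.factorization p) = N := by
    conv_rhs => rw [← Nat.prod_factorization_pow_eq_self hN0]
    rfl
  have hprod : ∏ p ∈ N.primeFactors, sp p (N.factorization p) =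
      2 * ∏ p ∈ N.primeFactors, p ^ (N.factorization p) := by
    rw [h1, ← hsum, Nat.sum_divisors hN0]
    rfl
  set A : Finset ℕ := N.primeFactors \ {p, q} with hA
  have hsub : ({p, q} : Finset ℕ) ⊆ N.primeFactors := by
    intro x hx
    rcases Finset.mem_insert.1 hx with h | h
    · rw [h]; exact hp
    · rw [Finset.mem_singleton.1 h]; exact hq
  have split : ∀ f : ℕ → ℕ, ∏ x ∈ N.primeFactors, f x = (∏ x ∈ A, f x) * (f p * f q) := by
    intro f
    rw [hA, ← Finset.prod_sdiff hsub, Finset.prod_pair hpq]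
  set M : ℕ := ∏ x ∈ A, x ^ (N.factorization x) with hM
  set a := N.factorization p with ha
  set b := N.factorization q with hb
  have hM0 : 0 < M := Finset.prod_pos (fun i hi => pow_pos (by
    have := h3 i (Finset.mem_sdiff.1 hi).1; omega) _)
  have hMn : ∀ x ∈ ({p, q} : Finset ℕ), ¬ x ∣ M := by
    intro x hx hdvd
    have hxp := hIp x (hsub hx)
    obtain ⟨i, hi, h5⟩ := (hxp.prime.dvd_finsetProd_iff _).1 hdvd
    have h6 := hxp.dvd_of_dvd_pow h5
    have h7 := (Nat.prime_dvd_prime_iff_eq hxp (hIp i (Finset.mem_sdiff.1 hi).1)).1 h6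
    rw [h7] at hx
    exact (Finset.mem_sdiff.1 hi).2 hx
  have hN : M * p ^ a * q ^ b = N := by
    rw [mul_assoc, ← h1, split]
  rw [split, split] at hprod
  have hpair := pair (M := M) (S := ∏ x ∈ A, sp x (N.factorization x)) (hIp p hp) (hIp q hq) hpq
    (h3 p hp) (h3 q hq) (he1 p hp) (he1 q hq) hM0 (hMn p (by simp)) (hMn q (by simp))
    (by rw [mul_assoc, hprod]; ring)
  set D := (p - 1) * (q - 1) with hD
  set C := p ^ a * q ^ b with hC
  have hMC : M * C = N := by rw [hC, ← hN]; ring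
  have hN2 : 0 < N ^ 2 := by positivity
  apply Nat.le_of_mul_le_mul_left _ hN2
  calc N ^ 2 * C ^ 7 = (M * p ^ a * q ^ b) ^ 2 * C ^ 7 := by rw [hN]
    _ ≤ (1728 * M ^ 7 * D ^ 3) * C ^ 7 := Nat.mul_le_mul_right _ hpair
    _ = 1728 * D ^ 3 * (M * C) ^ 7 := by ring
    _ = N ^ 2 * (1728 * D ^ 3 * N ^ 5) := by rw [hMC]; ring

end Pool.Agent.Results.MP_f02ea4_nt.TwoComponents
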