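import Mathlib
import Pool.Agent.TH907.Opn.ThirdD

set_option autoImplicit false

/-!
# The third largest prime factor of an odd perfect number

Let `N` be an odd perfect number, `y ≥ 1`, and let `D` be the part of `N` composed of the primes
`p > y` different from the two largest prime factors of `N`.  Then
`c log N ≤ y ^ 6 (log N) ^ ε (1 + y (τ(D) - 1))`.  In particular, if only two prime factors of `N` are
larger than `y`, then `c log N ≤ y ^ 6 (log N) ^ ε`; so the third largest prime factor of `N` is at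
least a constant times `(log N) ^ ((1 - ε) / 6)`.

Proof.  Let `r < s` be the two largest primes, with exponents `a` and `b`.  All the primes
`q ≤ y`, the other large primes and `r` are small, by the descent; so
`r ^ (a + 1) = 1 + V s ^ z` and `q ^ (e + 1) = 1 + B r ^ x s ^ y` with small even `V` and `B`.  This
bounds the power of `r` dividing `σ(s ^ b)` (`Cfg.g_bound`).  If `b` is large, then `s` is small as
well, and the bound for two prime power components (`TwoComponents`) gives the result.  Otherwise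
`σ(s ^ b)` is divisible by a high power `q ^ c` of some `q ≤ y` (`Cfg.exists_q`), and
`s ^ (b + 1) = 1`, `r ^ (a + 1) = 1 + V s ^ z`, `B r ^ x s ^ y = -1` modulo `q ^ c`.  If
`k (a + 1) = j x + w` with small `k, j, |w|`, then `(1 + V s ^ z) ^ k B ^ j s ^ (y j) = ± r ^ w`
modulo `q ^ c`, and hence `q ^ c` divides the determinant of a matrix which is a polynomial in a cyclic
permutation matrix of order `b + 1`.  This determinant is odd and small, which bounds `q ^ c`
(`circ`, `Cfg.key`).
-/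

namespace Pool.Agent.Results.MP_f02ea4_nt.ThirdLargest
open Finset
open Pool.Agent.W132.OPN
open Pool.Agent.TH907.Opn.Third

/-- **Main theorem.**  Let `ε > 0`.  There is `c > 0` such that for all odd perfect numbers `N` and all
`y ≥ 1` the following holds.  Let `D` be the part of `N` composed of the primes `p > y` such that `N`
has at least two prime factors larger than `p`.  Then
`c log N ≤ y ^ 6 (log N) ^ ε (1 + y (τ(D) - 1))`, where `τ` is the number of divisors. -/
theorem result (ε : ℝ) (hε : 0 < ε) : ∃ c : ℝ, 0 < c ∧ ∀ N : ℕ, Odd N → N.Perfect →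
    ∀ y : ℝ, 1 ≤ y → ∀ D : ℕ,
    D = ∏ p ∈ N.primeFactors.filter (fun p : ℕ => y < (p : ℝ) ∧
      ∃ q ∈ N.primeFactors, ∃ q' ∈ N.primeFactors, p < q ∧ q < q'), p ^ N.factorization p →
    c * Real.log N ≤ y ^ 6 * Real.log N ^ ε * (1 + y * ((D.divisors.card : ℝ) - 1)) := by
  classical
  obtain ⟨a, b, E⟩ := exists_est (ε / 5) (by positivity)
  have ha := E.a1
  have hb := E.b1
  set K1 := 10080 * (1 + 2 * a + 2 * b) * b ^ 3 + 14400 * a * b ^ 4 with hK1
  set C3 := (1 + 2 * a + 2 * b) + 2 * (a + 1 + a * b + a * b ^ 2) with hC3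
  have hK10 : 0 ≤ K1 := by positivity
  have hC30 : 0 ≤ C3 := by positivity
  set K := 1 + 4 * C3 + 128 * K1 with hK
  have hK0 : 1 ≤ K := by linarith
  refine ⟨1 / K, by positivity, ?_⟩
  intro N hodd hperf y hy D hD
  have H := opn_of_perfect hodd hperf
  obtain ⟨Y, hY, hY2, hYiff⟩ := LargePrimeDivisors.cutoff N H y hy
  set L := Real.log (N : ℝ) with hL
  have hL1 : 1 < L := one_lt_log H
  set l := L ^ (ε / 5) with hl
  have hl1 : 1 ≤ l := E.one_le N H
  have hle : L ^ ε = l ^ 5 := by
    rw [hl, ← Real.rpow_natCast, ← Real.rpow_mul (by linarith)]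
    congr 1
    push_cast; ring
  have hYr : (2 : ℝ) ≤ Y := by exact_mod_cast hY
  rw [hle, one_div, inv_mul_le_iff₀ (by linarith)]
  have hD0 : D ≠ 0 := by
    rw [hD]
    refine Finset.prod_ne_zero_iff.2 (fun p hp => ?_)
    have := H.three_le (Finset.mem_filter.1 hp).1
    positivity
  have hD1 : (1 : ℝ) ≤ (D.divisors.card : ℝ) := by
    have : 1 ≤ D.divisors.card := Finset.card_pos.2 ⟨1, Nat.one_mem_divisors.2 hD0⟩
    exact_mod_cast this
  set t : ℝ := (D.divisors.card : ℝ) with ht
  have hyt : 0 ≤ y * (t - 1) := mul_nonneg (by linarith) (by linarith)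
  set Z := y ^ 6 * l ^ 5 * (1 + y * (t - 1)) with hZ
  have hl5 : 1 ≤ l ^ 5 := one_le_pow₀ hl1
  have hy6 : 1 ≤ y ^ 6 := one_le_pow₀ hy
  have hZ1 : y ^ 6 * l ^ 5 ≤ Z := by
    rw [hZ]
    calc y ^ 6 * l ^ 5 = y ^ 6 * l ^ 5 * 1 := (mul_one _).symm
      _ ≤ _ := mul_le_mul_of_nonneg_left (by linarith) (by positivity)
  have hyZ : y ≤ Z := by
    refine le_trans ?_ hZ1
    calc y = y ^ 1 * 1 := by ring
      _ ≤ y ^ 6 * l ^ 5 := mul_le_mul (pow_le_pow_right₀ hy (by norm_num)) hl5 (by norm_num)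
          (by positivity)
  have hZ0 : 0 ≤ Z := by linarith
  by_cases hYL : (Y : ℝ) ≤ 4 * L
  swap
  · -- `y` is large
    push Not at hYL
    have h1 : L ≤ 1 * Z := by linarith
    exact h1.trans (mul_le_mul_of_nonneg_right hK0 hZ0)
  have hR : ∀ p ∈ N.primeFactors, (y < (p : ℝ) ↔ p ∈ R N Y) := by
    intro p hp
    rw [R, Finset.mem_filter, ← hYiff p hp, not_le]
    exact ⟨fun h => ⟨hp, h⟩, fun h => h.2⟩
  by_cases hcard : (R N Y).card ≤ 1
  · -- at most one large prime
    have h1 := LargePrimeDivisors.main3 E H hY hYL hcard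
    rw [← hL, ← hl, ← hC3] at h1
    have h2 : (Y : ℝ) ^ 2 ≤ 4 * y ^ 2 := by
      calc (Y : ℝ) ^ 2 ≤ (2 * y) ^ 2 := pow_le_pow_left₀ (by positivity) hY2 2
        _ = 4 * y ^ 2 := by ring
    have h3 : y ^ 2 ≤ y ^ 6 := pow_le_pow_right₀ hy (by norm_num)
    have h4 : l ^ 3 ≤ l ^ 5 := pow_le_pow_right₀ hl1 (by norm_num)
    calc L ≤ C3 * (Y : ℝ) ^ 2 * l ^ 3 := h1
      _ ≤ C3 * (4 * y ^ 6) * l ^ 5 := by
          gcongr
          linarith
      _ = 4 * C3 * (y ^ 6 * l ^ 5) := by ring
      _ ≤ 4 * C3 * Z := mul_le_mul_of_nonneg_left hZ1 (by positivity)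
      _ ≤ K * Z := by
          apply mul_le_mul_of_nonneg_right _ hZ0
          linarith
  · -- at least two large primes
    push Not at hcard
    have hne : (R N Y).Nonempty := Finset.card_pos.1 (by omega)
    set s := (R N Y).max' hne with hs
    have hsR : s ∈ R N Y := Finset.max'_mem _ _
    have hsmax : ∀ p ∈ R N Y, p ≤ s := fun p hp => Finset.le_max' _ _ hp
    have hne' : ((R N Y).erase s).Nonempty := by
      rw [← Finset.card_pos, Finset.card_erase_of_mem hsR]; omega
    set r := ((R N Y).erase s).max' hne' with hr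
    have hrR : r ∈ (R N Y).erase s := Finset.max'_mem _ _
    have hrmax : ∀ p ∈ (R N Y).erase s, p ≤ r := fun p hp => Finset.le_max' _ _ hp
    have hrs : r < s := lt_of_le_of_ne (hsmax r (Finset.mem_of_mem_erase hrR))
      (Finset.mem_erase.1 hrR).1
    have c : Cfg N Y r s := ⟨H, hY, Finset.mem_of_mem_erase hrR, hsR, hrs,
      fun p hp hps => hrmax p (Finset.mem_erase.2 ⟨hps, hp⟩)⟩
    have hRf : N.primeFactors.filter (fun p : ℕ => y < (p : ℝ) ∧
        ∃ q ∈ N.primeFactors, ∃ q' ∈ N.primeFactors, p < q ∧ q < q') = EE N Y r s := by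
      ext p
      rw [Finset.mem_filter, Cfg.mem_EE]
      constructor
      · rintro ⟨hp, h1, q, hq, q', hq', h2, h3⟩
        have hpR := (hR p hp).1 h1
        have hqR : q ∈ R N Y := (hR q hq).1 (h1.trans (by exact_mod_cast h2))
        have hqR' : q' ∈ R N Y := (hR q' hq').1 (h1.trans (by exact_mod_cast (h2.trans h3)))
        have h4 := hsmax q' hqR'
        have h5 := hrmax q (Finset.mem_erase.2 ⟨by omega, hqR⟩)
        exact ⟨by omega, by omega, hpR⟩
      · rintro ⟨h1, h2, h3⟩
        have hp := R_sub h3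
        have h4 := hrmax p (Finset.mem_erase.2 ⟨h2, h3⟩)
        exact ⟨hp, (hR p hp).2 h3, r, R_sub (Finset.mem_of_mem_erase hrR), s, R_sub hsR,
          by omega, hrs⟩
    rw [hRf] at hD
    have hDcard : D.divisors.card = Pool.Agent.TH907.Opn.Third.tau N Y r s := by
      rw [hD]
      exact LargePrimeDivisors.card_divisors_prod H Cfg.EE_sub
    have h1 := two_large c E hodd hperf hYL
    rw [← hL, ← hl, ← hK1, ← hDcard, ← ht] at h1
    have h6 : (Y : ℝ) ^ 6 ≤ 64 * y ^ 6 := by
      calc (Y : ℝ) ^ 6 ≤ (2 * y) ^ 6 := pow_le_pow_left₀ (by positivity) hY2 6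
        _ = 64 * y ^ 6 := by ring
    have h7 : 1 + (Y : ℝ) * (t - 1) ≤ 2 * (1 + y * (t - 1)) := by
      have : (Y : ℝ) * (t - 1) ≤ 2 * y * (t - 1) := mul_le_mul_of_nonneg_right hY2 (by linarith)
      linarith
    have h8 : 0 ≤ 1 + (Y : ℝ) * (t - 1) := by
      have : 0 ≤ (Y : ℝ) * (t - 1) := mul_nonneg (by linarith) (by linarith)
      linarith
    calc L ≤ K1 * ((Y : ℝ) ^ 6 * l ^ 5 * (1 + Y * (t - 1))) := h1
      _ ≤ K1 * ((64 * y ^ 6) * l ^ 5 * (2 * (1 + y * (t - 1)))) := by gcongr
      _ = 128 * K1 * Z := by rw [hZ]; ring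
      _ ≤ K * Z := by
          apply mul_le_mul_of_nonneg_right _ hZ0
          linarith

end Pool.Agent.Results.MP_f02ea4_nt.ThirdLargest
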